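import Pool.Agent.Run7.h469.TR.P47914d

/-!
# The modular Schanuel conjecture along Euclid's algorithm

Let `n_1, …, n_k` be integers, `u_i` points of the upper half-plane with `j(u_i) = n_i` and `z_i` ANY points equivalent to the `u_i`
under `GL_2^+(ℚ)` (there is no bound for the degrees of the isogenies). We call `(n_1, …, n_k)` good if for all these
`z_1, …, z_k` every relation of degree at most `δ` between `2 π i, w_1, …, w_q, z_1, …, z_k` over a number field of degree at most
`δ` (of any height) is trivial: the polynomial is zero after the substitution of `2 π i, w_1, …, w_q`. The modular Schanuel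
conjecture predicts that `z_1, …, z_k` are algebraically independent unless `z_i` is a CM point or two of the points are
equivalent.

The subtractive Euclidean algorithm replaces a pair `(a, b)` of positive integers by `(a, b - a)` or `(a - b, b)`. Let `k = 2`.
We prove that for all pairs `(a, b)` in `[1, X]^2` with at most `C (δ + 2)^C X^2 H^(-η)` exceptions, for ALL pairs `(u, v)` with
`max(u, v) ≥ H` of the algorithm of `(a, b)` ALL pairs `t = M (u, v) + b` of nonzero integers are good, where `M` is an integral
`2 × 2` matrix with `det M ≠ 0`, `b` an integral vector and the entries of `M` and `b` are at most `max(u, v)^η`, `η = 1 / (δ + 2)^C`. The number `C` depends only on `q`. The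
bound for the number of the exceptions is small for large `H`, uniformly in `X`.

The starting theorem `BestApproximations` of this problem bounds the number of pairs of integers up to `U` which are not good by
`C U^(2 - 1 / (δ + 2)^C)`. For the
algorithm a pair `(u, v)` counts with the number of the pairs in `[1, X]^2` above it in the tree, at most `6 X^2 / (u v)`; a pair
with a small coordinate `v` counts too much, and so the chains `(u, v), (u - v, v), …` with a small `v` are treated as a whole.
-/

set_option autoImplicit false

namespace Pool.Agent.Results.MP_47914d_nt.EuclideanAlgorithm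

open Finset MeasureTheory
open Run7.h469.Ab (euclidExceptions)
open Run7.h469.Vp (Combinations)
open Run7.h469.TR.P47914d (few)
open Pool.Agent.Results.MP_47914d_nt.BestApproximations (Good)

/-- **The modular Schanuel conjecture along Euclid's algorithm.** There is `C` such that for all `δ`, all `w` in `ℂ^q` and all `X` and
`H ≥ 1`, `η = 1 / (δ + 2)^C`: for all but `C (δ + 2)^C X^2 H^(-η)` of the pairs `(a, b)` in `[1, X]^2`, for all pairs `(u, v)` with
`max(u, v) ≥ H` of the subtractive Euclidean algorithm of `(a, b)`, all pairs `M (u, v) + b` of nonzero integers, `det M ≠ 0`, with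
entries of `M` and `b` at most `max(u, v)^η` are good. -/
theorem result (q : ℕ) : ∃ C : ℕ, ∀ (δ : ℕ) (w : Fin q → ℂ) (X H : ℕ), 1 ≤ H →
    ((euclidExceptions (Combinations (1 / ((δ : ℝ) + 2) ^ C) (Good δ w)) X H).card : ℝ) ≤
      C * ((δ : ℝ) + 2) ^ C * (X : ℝ) ^ 2 * (H : ℝ) ^ (-(1 / ((δ : ℝ) + 2) ^ C)) := by
  obtain ⟨C₀, h⟩ := few 2 q
  obtain ⟨C, hC⟩ := Run7.h469.Vp.euclid_eff C₀
  refine ⟨C, fun δ w => hC δ _ ?_⟩
  have h1 := h δ w
  rw [Nat.cast_ofNat] at h1
  exact h1

end Pool.Agent.Results.MP_47914d_nt.EuclideanAlgorithm
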