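import Pool.Agent.Run7.h469.TR.P47914d

/-!
# The modular Schanuel conjecture in the Farey intervals around a real number

Let `n_1, …, n_k` be integers, `u_i` points of the upper half-plane with `j(u_i) = n_i` and `z_i` ANY points equivalent to the `u_i`
under `GL_2^+(ℚ)` (there is no bound for the degrees of the isogenies). We call `(n_1, …, n_k)` good if for all these
`z_1, …, z_k` every relation of degree at most `δ` between `2 π i, w_1, …, w_q, z_1, …, z_k` over a number field of degree at most
`δ` (of any height) is trivial: the polynomial is zero after the substitution of `2 π i, w_1, …, w_q`. The modular Schanuel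
conjecture predicts that `z_1, …, z_k` are algebraically independent unless `z_i` is a CM point or two of the points are
equivalent.

Let `k = 2`. We prove that for all real `α > 0` outside a set of Hausdorff dimension at most `1 - η`, and for almost all `α` with respect to
every measure of larger dimension, ALL but finitely many Farey intervals `[q / s, p / r]`, `p s - q r = 1`, around `α` have the
following property: for `(u, v)` one of the four pairs `(p, q)`, `(r, s)`, `(p, r)`, `(q, s)` ALL pairs `t = M (u, v) + b` of
nonzero integers are good, where `M` is an integral `2 × 2` matrix with `det M ≠ 0`, `b` an integral vector and the entries of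
`M` and `b` are at most `max(u, v)^η`, `η = 1 / (δ + 2)^C`. The number `C` depends only on `q`. For almost all real `α` this is true for ALL degrees `δ` at the same time. The Farey intervals around `α` are those on the path to `α` in the
Stern-Brocot tree.

The starting theorem `BestApproximations` of this problem bounds the number of pairs of integers up to `U` which are not good by
`C U^(2 - 1 / (δ + 2)^C)`. The starting theorem about approximations of this problem treats integer vectors for which a linear form is near an integer. A Farey interval around `α` can be much longer than `1 / r^2`, and `r / s` is not near a number determined by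
`α`. The chains of intervals with a common end are treated as a whole.
-/

set_option autoImplicit false

namespace Pool.Agent.Results.MP_47914d_nt.FareyIntervals

open Finset MeasureTheory
open Run7.h469.Ab (badIntervals)
open Run7.h469.Vp (Combinations)
open Run7.h469.TR.P47914d (few)
open Pool.Agent.Results.MP_47914d_nt.BestApproximations (Good)

/-- **The modular Schanuel conjecture in Farey intervals.** There is `C` such that (1) for all `δ` and all `w` in `ℂ^q`,
`η = 1 / (δ + 2)^C`, for all `α > 0` outside a set of Hausdorff dimension at most `1 - η`, and for almost all `α > 0` for all measures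
of a dimension `m > 1 - η`, there are only finitely many `q / s ≤ α ≤ p / r`, `p s - q r = 1`, such that for one of the pairs
`(u, v) = (p, q)`, `(r, s)`, `(p, r)`, `(q, s)` some pair `M (u, v) + b` of nonzero integers, `det M ≠ 0`, with entries of `M` and
`b` at most `max(u, v)^η`, is not good; (2) for all `w`, for almost all `α > 0`, this is true for ALL `δ`. -/
theorem result (q : ℕ) : ∃ C : ℕ,
    (∀ (δ : ℕ) (w : Fin q → ℂ),
      (∃ E : Set ℝ, dimH E ≤ ENNReal.ofReal (1 - 1 / ((δ : ℝ) + 2) ^ C) ∧
        ∀ α : ℝ, 0 < α → α ∉ E → (badIntervals (Combinations (1 / ((δ : ℝ) + 2) ^ C) (Good δ w)) α).Finite) ∧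
      ∀ (μ : Measure ℝ) (C₁ m : ℝ), 1 - 1 / ((δ : ℝ) + 2) ^ C < m →
        (∀ (x ρ : ℝ), 0 < ρ → μ (Metric.closedBall x ρ) ≤ ENNReal.ofReal (C₁ * ρ ^ m)) →
        ∀ᵐ α ∂μ, 0 < α → (badIntervals (Combinations (1 / ((δ : ℝ) + 2) ^ C) (Good δ w)) α).Finite) ∧
    ∀ w : Fin q → ℂ, ∀ᵐ α : ℝ, ∀ δ : ℕ,
      0 < α → (badIntervals (Combinations (1 / ((δ : ℝ) + 2) ^ C) (Good δ w)) α).Finite := by
  obtain ⟨C₀, h⟩ := few 2 q
  obtain ⟨C, hC⟩ := Run7.h469.Vp.farey_eff C₀
  have key : ∀ (δ : ℕ) (w : Fin q → ℂ),
      (∃ E : Set ℝ, dimH E ≤ ENNReal.ofReal (1 - 1 / ((δ : ℝ) + 2) ^ C) ∧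
        ∀ α : ℝ, 0 < α → α ∉ E → (badIntervals (Combinations (1 / ((δ : ℝ) + 2) ^ C) (Good δ w)) α).Finite) ∧
      ∀ (μ : Measure ℝ) (C₁ m : ℝ), 1 - 1 / ((δ : ℝ) + 2) ^ C < m →
        (∀ (x ρ : ℝ), 0 < ρ → μ (Metric.closedBall x ρ) ≤ ENNReal.ofReal (C₁ * ρ ^ m)) →
        ∀ᵐ α ∂μ, 0 < α → (badIntervals (Combinations (1 / ((δ : ℝ) + 2) ^ C) (Good δ w)) α).Finite := by
    intro δ w
    refine hC δ _ ?_
    have h1 := h δ w
    rw [Nat.cast_ofNat] at h1
    exact h1
  refine ⟨C, key, fun w => ?_⟩
  rw [ae_all_iff]
  intro δ
  have hpos := Run7.h469.Vp.sav_pos C δ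
  unfold Run7.h469.Vp.sav at hpos
  exact Run7.h469.Vp.ae_of (by linarith) (key δ w).2

end Pool.Agent.Results.MP_47914d_nt.FareyIntervals
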