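import Mathlib
import Pool.Agent.Run7.h643.IS.Iso2
import Pool.Agent.Y508.J.Mob

/-!
# The modular Schanuel conjecture: infinite sets of primes, all points isogenous to points over them

Let `j` be the modular invariant. For a prime number `p` we consider ALL points `x` of the upper half-plane which are
equivalent under `GL_2^+(ℚ)` to a point `v` with `j(v) = p`. The numbers `j(x)` are algebraic; the modular Schanuel
conjecture predicts that numbers `x_p` of this kind for different `p` are algebraically independent, if they are not CM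
points and not equivalent to each other.

* For all `d` and all complex numbers `w_1, …, w_q` (for instance `w_1 = 2πi`) there is an infinite set `B` of primes,
  which contains arbitrarily long sequences of consecutive primes, such that for ALL choices of points `x_p`, `p` in `B`, as
  above every relation `P(w, x) = 0` of degree `≤ d` between the `w_i` and any number of the `x_p`, with coefficients in a
  number field of degree `≤ d`, is an identity in the `x_p`. For `q = 0`: no nonzero polynomial of degree `≤ d` over a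
  number field of degree `≤ d` (no bound on the number of the variables, on the height of the coefficients and on the
  degrees of the isogenies) vanishes at the numbers `x_p`.
* More generally let numbers `r_0, r_1, …` be given. There are lengths `L_l`, numbers `C_l` and infinite sets `M_l`, which
  depend on `q` and the `r_i` only, such that for all `N_l ≥ (L_l + 2) ^ ((δ_l + 2) ^ C_l)` in `M_l` and all complex numbers
  `w_1, …, w_q` there are `r_l` consecutive primes in `(N_l, N_l + L_l]` for every `l = 0, 1, …` such that for all choices of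
  points `x_p` as above for the primes `p` of all these runs the `x_p` are free in growing degree over the constants `w`:
  the relations of degree `≤ D` over number fields of degree `≤ D` are identities in the numbers belonging to the runs
  number `j₀, j₀ + 1, …`, if `D ≤ δ_l` for all `l ≥ j₀`.

The starting results of this problem (`GrowingDegreeIsogenies`, `IsogenyWindows`) are about finitely many points over the
integers of one short window.

The proof chooses the runs one after the other. The points for the primes chosen before are constants in the starting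
theorem on windows (`Pool.Agent.R351.GD.winZ2_exp`, `MP_f58a57_nt.GrowingDegreeWindows`), which allows a bounded number of
exceptional integers; by the theorem of Maynard and Tao (`Pool.Agent.H362R2.CM.quarter`) there are infinitely many intervals
of bounded length in which they can be avoided by `r_l` consecutive primes. In step `l` the degree of the window theorem is
taken so large that the denominators of all isogenies chosen up to then can be cleared. All points with the same large real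
invariant are equivalent under `SL_2(ℤ)` (`Pool.Agent.Y988.J.t_fd`).
-/

set_option autoImplicit false

namespace Pool.Agent.Results.MP_47914d_nt.InfiniteSetsOfPrimes

open MvPolynomial Module

/-- the normalised Eisenstein series of weight `4` -/
noncomputable def E4 (τ : ℂ) : ℂ :=
  1 + 240 * ∑' m : ℕ, ((ArithmeticFunction.sigma 3 (m + 1) : ℕ) : ℂ) *
    Complex.exp (2 * (Real.pi : ℂ) * Complex.I * ((m : ℂ) + 1) * τ)

/-- the normalised Eisenstein series of weight `6` -/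
noncomputable def E6 (τ : ℂ) : ℂ :=
  1 - 504 * ∑' m : ℕ, ((ArithmeticFunction.sigma 5 (m + 1) : ℕ) : ℂ) *
    Complex.exp (2 * (Real.pi : ℂ) * Complex.I * ((m : ℂ) + 1) * τ)

/-- the modular invariant `j = q⁻¹ + 744 + 196884 q + ⋯` -/
noncomputable def J (τ : ℂ) : ℂ := 1728 * E4 τ ^ 3 / (E4 τ ^ 3 - E6 τ ^ 2)

/-- `x` is equivalent under `GL_2^+(ℚ)` to a point `v` of the upper half-plane with `j(v) = t`. -/
def Isogenous (t : ℕ) (x : ℂ) : Prop :=
  ∃ v : ℂ, 0 < v.im ∧ J v = t ∧ ∃ a b c d : ℚ, 0 < a * d - b * c ∧ x = ((a : ℂ) * v + b) / ((c : ℂ) * v + d)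

/-- **Freedom in growing degree** of the numbers `x_p` belonging to the elements `p` of the sets `a 0, a 1, …` over the
constants `w`: if `D ≤ δ l` for all `l ≥ j₀` then every relation `P (w, x) = 0` of degree `≤ D` with coefficients in a number
field of degree `≤ D`, between the constants `w` and the numbers `x_p` for elements `p` of the sets, is an identity in the
numbers belonging to the sets `a l`, `l ≥ j₀`. For `j₀ = 0` it is an identity in all these variables. -/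
def Free {q : ℕ} (w : Fin q → ℂ) (x : ℕ → ℂ) (a : ℕ → Finset ℕ) (δ : ℕ → ℕ) : Prop :=
  ∀ j₀ D : ℕ, (∀ l, j₀ ≤ l → D ≤ δ l) → ∀ K : IntermediateField ℚ ℂ, FiniteDimensional ℚ K → finrank ℚ K ≤ D →
    ∀ P : MvPolynomial (Fin q ⊕ ℕ) K, P.totalDegree ≤ D → (∀ p, Sum.inr p ∈ P.vars → ∃ l, p ∈ a l) →
      aeval (Sum.elim w x) P = 0 →
      ∀ y : ℕ → ℂ, (∀ l < j₀, ∀ p ∈ a l, y p = x p) → aeval (Sum.elim w y) P = 0

/-- the set of the `r` consecutive primes number `k, …, k + r - 1` -/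
noncomputable def run (k r : ℕ) : Finset ℕ := (Finset.range r).image fun i => Nat.nth Nat.Prime (k + i)

theorem mem_run {k r p : ℕ} : p ∈ run k r ↔ ∃ i < r, p = Nat.nth Nat.Prime (k + i) := by
  rw [run, Finset.mem_image]
  constructor
  · rintro ⟨i, hi, rfl⟩
    exact ⟨i, Finset.mem_range.1 hi, rfl⟩
  · rintro ⟨i, hi, rfl⟩
    exact ⟨i, Finset.mem_range.2 hi, rfl⟩

theorem J_eq : J = Pool.Agent.TH21.MS.jj := by
  have h4 : E4 = Pool.Agent.TH21.MS.E4 := funext Pool.Agent.Y120.J.E4_same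
  have h6 : E6 = Pool.Agent.TH21.MS.E6 := funext Pool.Agent.Y120.J.E6_same
  funext τ
  unfold J Pool.Agent.TH21.MS.jj
  rw [h4, h6]

/-- composition of isogenies -/
theorem comp_mat (z : UpperHalfPlane) (γ : Matrix.SpecialLinearGroup (Fin 2) ℤ) {v x : ℂ}
    (hv : v = ((γ • z : UpperHalfPlane) : ℂ)) {a b c d : ℚ} (h : 0 < a * d - b * c)
    (hx : x = ((a : ℂ) * v + b) / ((c : ℂ) * v + d)) :
    ∃ m : ℚ × ℚ × ℚ × ℚ, m.1 * m.2.2.2 - m.2.1 * m.2.2.1 ≠ 0 ∧
      x = ((m.1 : ℂ) * z + m.2.1) / ((m.2.2.1 : ℂ) * z + m.2.2.2) := by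
  obtain ⟨-, -, -, h1, h2⟩ := Pool.Agent.Y508.J.t_mob γ z
  have hdet : ((γ 0 0 : ℤ) : ℚ) * γ 1 1 - γ 0 1 * γ 1 0 = 1 := by
    have h := γ.det_coe
    rw [Matrix.det_fin_two] at h
    exact_mod_cast h
  refine ⟨(a * γ 0 0 + b * γ 1 0, a * γ 0 1 + b * γ 1 1, c * γ 0 0 + d * γ 1 0, c * γ 0 1 + d * γ 1 1), ?_, ?_⟩
  · have h3 : (a * γ 0 0 + b * γ 1 0) * (c * γ 0 1 + d * γ 1 1) - (a * γ 0 1 + b * γ 1 1) * (c * γ 0 0 + d * γ 1 0) =
        (a * d - b * c) * (((γ 0 0 : ℤ) : ℚ) * γ 1 1 - γ 0 1 * γ 1 0) := by ring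
    show (a * γ 0 0 + b * γ 1 0) * (c * γ 0 1 + d * γ 1 1) - (a * γ 0 1 + b * γ 1 1) * (c * γ 0 0 + d * γ 1 0) ≠ 0
    rw [h3, hdet, mul_one]
    exact h.ne'
  · rw [hx, hv, h1]
    have h4 : (a : ℂ) * (((γ 0 0 : ℂ) * z + γ 0 1) / ((γ 1 0 : ℂ) * z + γ 1 1)) + b =
        (((a * γ 0 0 + b * γ 1 0 : ℚ) : ℂ) * z + ((a * γ 0 1 + b * γ 1 1 : ℚ) : ℂ)) / ((γ 1 0 : ℂ) * z + γ 1 1) := by
      rw [eq_div_iff h2, add_mul, mul_assoc, div_mul_cancel₀ _ h2]
      push_cast
      ring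
    have h5 : (c : ℂ) * (((γ 0 0 : ℂ) * z + γ 0 1) / ((γ 1 0 : ℂ) * z + γ 1 1)) + d =
        (((c * γ 0 0 + d * γ 1 0 : ℚ) : ℂ) * z + ((c * γ 0 1 + d * γ 1 1 : ℚ) : ℂ)) / ((γ 1 0 : ℂ) * z + γ 1 1) := by
      rw [eq_div_iff h2, add_mul, mul_assoc, div_mul_cancel₀ _ h2]
      push_cast
      ring
    rw [h4, h5, div_div_div_cancel_right₀ h2]

/-- runs of consecutive primes -/
theorem runs (q : ℕ) (r : ℕ → ℕ) : ∃ (C L : ℕ → ℕ) (M : ℕ → Set ℕ), (∀ l, (M l).Infinite) ∧ ∀ N δ : ℕ → ℕ,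
    (∀ l, N l ∈ M l ∧ (L l + 2) ^ ((δ l + 2) ^ C l) ≤ N l) → ∀ w : Fin q → ℂ, ∃ k : ℕ → ℕ,
      (∀ l, ∀ p ∈ run (k l) (r l), N l < p ∧ p ≤ N l + L l) ∧
      ∀ x : ℕ → ℂ, (∀ l, ∀ p ∈ run (k l) (r l), Isogenous p (x p)) → Free w x (fun l => run (k l) (r l)) δ := by
  classical
  obtain ⟨T₁, hT₁⟩ := Pool.Agent.Run7.h643.IS.same
  obtain ⟨T₂, hT₂⟩ := Pool.Agent.Run7.h643.IS.exists_pt
  obtain ⟨T₀, hT₀⟩ := exists_nat_ge (max T₁ T₂)
  obtain ⟨C, L, M, hM, h⟩ := Pool.Agent.Run7.h643.IS.inf_iso T₀ q r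
  refine ⟨C, L, fun l => M l \ ((Finset.range T₀ : Finset ℕ) : Set ℕ), fun l => (hM l).sdiff (Finset.finite_toSet _),
    fun N δ hN w => ?_⟩
  have hbig : ∀ p : ℕ, T₀ < p → T₁ ≤ (p : ℝ) ∧ T₂ ≤ (p : ℝ) := by
    intro p hp
    have h1 : (T₀ : ℝ) ≤ p := by exact_mod_cast hp.le
    exact ⟨(le_max_left _ _).trans (hT₀.trans h1), (le_max_right _ _).trans (hT₀.trans h1)⟩
  have hz : ∀ p : ℕ, ∃ z : UpperHalfPlane, T₀ < p → Pool.Agent.TH21.MS.jj z = (p : ℂ) := by
    intro p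
    by_cases hp : T₀ < p
    · obtain ⟨z, hz⟩ := hT₂ p (hbig p hp).2
      exact ⟨z, fun _ => by rw [hz]; push_cast; rfl⟩
    · exact ⟨UpperHalfPlane.I, fun h => absurd h hp⟩
  choose z hz using hz
  obtain ⟨k, hk1, hk2⟩ := h N δ (fun l => ⟨(hN l).1.1, (hN l).2⟩) w z (fun p _ hp => hz p hp)
  have hrun : ∀ l, ∀ p ∈ run (k l) (r l), N l < p ∧ p ≤ N l + L l := by
    intro l p hp
    obtain ⟨i, hi, rfl⟩ := mem_run.1 hp
    exact hk1 l i hi
  have hrunT : ∀ l, ∀ p ∈ run (k l) (r l), T₀ < p := by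
    intro l p hp
    have h1 := (hN l).1.2
    rw [Finset.mem_coe, Finset.mem_range] at h1
    have h2 := (hrun l p hp).1
    omega
  refine ⟨k, hrun, fun x hx => ?_⟩
  have hmat : ∀ n, ∃ m : ℚ × ℚ × ℚ × ℚ, m.1 * m.2.2.2 - m.2.1 * m.2.2.1 ≠ 0 ∧ ((∃ l, n ∈ run (k l) (r l)) →
      x n = ((m.1 : ℂ) * z n + m.2.1) / ((m.2.2.1 : ℂ) * z n + m.2.2.2)) := by
    intro n
    by_cases hn : ∃ l, n ∈ run (k l) (r l)
    · obtain ⟨l, hl⟩ := hn
      obtain ⟨v, hv, hvj, a, b, c, d, hdet, hxv⟩ := hx l n hl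
      have hT := hrunT l n hl
      rw [J_eq] at hvj
      obtain ⟨γ, hγ⟩ := hT₁ (z n) ⟨v, hv⟩ n (hbig n hT).1 (by rw [hz n hT]; push_cast; rfl) (by
        show Pool.Agent.TH21.MS.jj v = ((n : ℝ) : ℂ)
        rw [hvj]
        push_cast
        rfl)
      obtain ⟨m, hm1, hm2⟩ := comp_mat (z n) γ (v := v) (by rw [← hγ]) hdet hxv
      exact ⟨m, hm1, fun _ => hm2⟩
    · exact ⟨(1, 0, 0, 1), by norm_num, fun h => absurd h hn⟩
  choose m hm1 hm2 using hmat
  intro j₀ D hD K hK hKD P hP hPv hP0 y hy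
  refine hk2 (fun n => (m n).1) (fun n => (m n).2.1) (fun n => (m n).2.2.1) (fun n => (m n).2.2.2) hm1
    (fun n => (((m n).1 : ℂ) * z n + (m n).2.1) / (((m n).2.2.1 : ℂ) * z n + (m n).2.2.2)) (fun n => rfl) j₀ D hD K hK hKD
    P hP (fun p hp => ?_) ?_ y (fun l hl i hi => ?_)
  · obtain ⟨l, hl⟩ := hPv p hp
    obtain ⟨i, hi, h1⟩ := mem_run.1 hl
    exact ⟨l, i, hi, h1⟩
  · rw [← hP0]
    refine eval₂Hom_congr' rfl ?_ rfl
    intro i hi _
    rcases i with i | p
    · simp only [Sum.elim_inl]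
    · simp only [Sum.elim_inr]
      exact (hm2 p (hPv p hi)).symm
  · have h1 : Nat.nth Nat.Prime (k l + i) ∈ run (k l) (r l) := mem_run.2 ⟨i, hi, rfl⟩
    rw [hy l hl _ h1]
    exact hm2 _ ⟨l, h1⟩

/-- **Main theorem.** -/
theorem result :
    (∀ (q d : ℕ) (w : Fin q → ℂ), ∃ B : Set ℕ, (∀ p ∈ B, p.Prime) ∧
      (∀ r : ℕ, ∃ k : ℕ, ∀ i < r, Nat.nth Nat.Prime (k + i) ∈ B) ∧
      ∀ x : ℕ → ℂ, (∀ p ∈ B, Isogenous p (x p)) →
      ∀ K : IntermediateField ℚ ℂ, FiniteDimensional ℚ K → finrank ℚ K ≤ d →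
      ∀ P : MvPolynomial (Fin q ⊕ ℕ) K, P.totalDegree ≤ d → (∀ p, Sum.inr p ∈ P.vars → p ∈ B) →
        aeval (Sum.elim w x) P = 0 → ∀ y : ℕ → ℂ, aeval (Sum.elim w y) P = 0) ∧
    (∀ (q : ℕ) (r : ℕ → ℕ), ∃ (C L : ℕ → ℕ) (M : ℕ → Set ℕ), (∀ l, (M l).Infinite) ∧ ∀ N δ : ℕ → ℕ,
      (∀ l, N l ∈ M l ∧ (L l + 2) ^ ((δ l + 2) ^ C l) ≤ N l) → ∀ w : Fin q → ℂ, ∃ k : ℕ → ℕ,
        (∀ l, ∀ p ∈ run (k l) (r l), N l < p ∧ p ≤ N l + L l) ∧
        ∀ x : ℕ → ℂ, (∀ l, ∀ p ∈ run (k l) (r l), Isogenous p (x p)) → Free w x (fun l => run (k l) (r l)) δ) := by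
  classical
  refine ⟨fun q d w => ?_, runs⟩
  obtain ⟨C, L, M, hM, h⟩ := runs q fun l => l
  have hN : ∀ l, ∃ N, N ∈ M l ∧ (L l + 2) ^ ((d + 2) ^ C l) ≤ N := fun l => by
    obtain ⟨N, h1, h2⟩ := (hM l).exists_gt ((L l + 2) ^ ((d + 2) ^ C l))
    exact ⟨N, h1, h2.le⟩
  choose N hN using hN
  obtain ⟨k, hk1, hk2⟩ := h N (fun _ => d) hN w
  refine ⟨{p | ∃ l, p ∈ run (k l) l}, ?_, fun r => ⟨k r, fun i hi => ⟨r, mem_run.2 ⟨i, hi, rfl⟩⟩⟩, ?_⟩
  · rintro p ⟨l, hl⟩
    obtain ⟨i, -, rfl⟩ := mem_run.1 hl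
    exact Nat.prime_nth_prime _
  · intro x hx K hK hKd P hPd hPv hP y
    exact hk2 x (fun l p hp => hx p ⟨l, hp⟩) 0 d (fun _ _ => le_rfl) K hK hKd P hPd hPv hP y
      (fun l hl => absurd hl (Nat.not_lt_zero l))

end Pool.Agent.Results.MP_47914d_nt.InfiniteSetsOfPrimes
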